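import Pool.Agent.Helper25.FB.DIAGb

set_option autoImplicit false

/-! # FB, part DIAG: conclusion -/

namespace Pool.Agent.Helper25.FB.DG

open MeasureTheory Filter Topology

/-- the entries minus the diagonal -/
theorem stepC {U V : ℂ → ℂ} {r C B : ℝ} (hr : 0 < r)
    (hU : DifferentiableOn ℂ U (Metric.ball 0 r))
    (hV : DifferentiableOn ℂ V (Metric.ball 0 r)) (hCU : ∀ τ ∈ Metric.ball (0 : ℂ) r, ‖U τ‖ ≤ C)
    (hCV : ∀ τ ∈ Metric.ball (0 : ℂ) r, ‖V τ‖ ≤ C) (hB : 2 * (2 / r) ≤ B) (l n : ℕ) :
    ‖Mx B (fun t s => Complex.exp (t * s + V s⁻¹ * U t⁻¹)) l n -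
      if l = n then Complex.exp (V 0 * U 0) else 0‖ ≤
      Real.exp (C * C) * ∑' q, bet (2 / r) B n q l := by
  have hρ : 0 < 2 / r := by positivity
  have hB' : 2 / r < B := by linarith
  have hB0 : 0 < B := by linarith
  have hC0 : 0 ≤ C := (norm_nonneg _).trans (hCU 0 (Metric.mem_ball_self hr))
  have h1 := stepB hr hU hV hCU hCV hB' l n
  -- the diagonal terms
  have hdiag : HasSum (fun i : ℕ × ℕ => if l = n ∧ i.2 = 0 then
      (l.factorial : ℂ) / (B : ℂ) ^ l * (B : ℂ) ^ n *
      (tc V r i.1 i.2 / ((i.1.factorial : ℂ) * ((n + i.2).factorial : ℂ))) *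
        (if l ≤ n + i.2 then tc U r i.1 (n + i.2 - l) else 0) else 0)
      (if l = n then Complex.exp (V 0 * U 0) else 0) := by
    by_cases hl : l = n
    · subst hl
      rw [if_pos rfl]
      have hinj : Function.Injective (fun a : ℕ => (a, 0) : ℕ → ℕ × ℕ) := by
        intro a b h
        simpa using h
      rw [← hinj.hasSum_iff]
      · have h5 : HasSum (fun a : ℕ => (V 0 * U 0) ^ a / (a.factorial : ℂ))
            (Complex.exp (V 0 * U 0)) := by
          rw [Complex.exp_eq_exp_ℂ]
          exact NormedSpace.expSeries_div_hasSum_exp (V 0 * U 0)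
        refine hs_congr h5 fun a => ?_
        simp only [Function.comp_apply, and_self, if_true, add_zero, le_refl, Nat.sub_self]
        have e1 : tc V r a 0 = V 0 ^ a := by
          unfold tc
          exact tay_zero (fun σ => V σ ^ a) r hr (hV.pow a)
        have e2 : tc U r a 0 = U 0 ^ a := by
          unfold tc
          exact tay_zero (fun σ => U σ ^ a) r hr (hU.pow a)
        rw [e1, e2, mul_pow]
        have e3 : (l.factorial : ℂ) ≠ 0 := by exact_mod_cast Nat.factorial_ne_zero _
        have e4 : (a.factorial : ℂ) ≠ 0 := by exact_mod_cast Nat.factorial_ne_zero _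
        have e5 : (B : ℂ) ^ l ≠ 0 := pow_ne_zero _ (by exact_mod_cast hB0.ne')
        field_simp
      · intro i hi
        rw [if_neg]
        rintro ⟨-, h⟩
        apply hi
        exact ⟨i.1, by rw [← h]⟩
    · rw [if_neg hl]
      have : (fun i : ℕ × ℕ => if l = n ∧ i.2 = 0 then
          (l.factorial : ℂ) / (B : ℂ) ^ l * (B : ℂ) ^ n *
          (tc V r i.1 i.2 / ((i.1.factorial : ℂ) * ((n + i.2).factorial : ℂ))) *
            (if l ≤ n + i.2 then tc U r i.1 (n + i.2 - l) else 0) else 0) = fun _ => 0 := by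
        funext i
        rw [if_neg]
        rintro ⟨h, -⟩
        exact hl h
      rw [this]
      exact hasSum_zero
  have h2 := h1.sub hdiag
  -- the majorant
  have hbs : Summable fun q : ℕ => bet (2 / r) B n q l := by
    have h3 := bet_summable hρ hB n
    exact (h3.comp_injective (i := fun q : ℕ => (q, l)) (by
      intro a b h
      simpa using h))
  have hmaj : HasSum (fun i : ℕ × ℕ => ((C * C) ^ i.1 / (i.1.factorial : ℝ)) *
      bet (2 / r) B n i.2 l) (Real.exp (C * C) * ∑' q, bet (2 / r) B n q l) := by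
    have hS : Summable fun i : ℕ × ℕ => ((C * C) ^ i.1 / (i.1.factorial : ℝ)) *
        bet (2 / r) B n i.2 l := by
      apply Summable.mul_of_nonneg (Real.summable_pow_div_factorial _) hbs
      · intro a; positivity
      · intro q; exact bet_nonneg hρ hB0 _ _ _
    have h4 : HasSum (fun a : ℕ => (C * C) ^ a / (a.factorial : ℝ)) (Real.exp (C * C)) := by
      rw [Real.exp_eq_exp_ℝ]
      exact NormedSpace.expSeries_div_hasSum_exp (C * C)
    exact h4.mul hbs.hasSum hS
  refine h2.norm_le_of_bounded hmaj fun i => ?_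
  by_cases hc : l = n ∧ i.2 = 0
  · rw [if_pos hc, sub_self, norm_zero]
    have := bet_nonneg hρ hB0 n i.2 l
    positivity
  · rw [if_neg hc, sub_zero]
    unfold bet
    by_cases hl : l ≤ n + i.2
    · rw [if_pos hl, if_pos ⟨hl, hc⟩]
      have b1 := tc_bound hr hCV i.1 i.2
      have b2 := tc_bound hr hCU i.1 (n + i.2 - l)
      rw [norm_mul, norm_mul, norm_mul, norm_div, norm_div, norm_mul, norm_pow, norm_pow,
        Complex.norm_real, Real.norm_of_nonneg hB0.le, Complex.norm_natCast, Complex.norm_natCast,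
        Complex.norm_natCast]
      calc (l.factorial : ℝ) / B ^ l * B ^ n *
            (‖tc V r i.1 i.2‖ / ((i.1.factorial : ℝ) * ((n + i.2).factorial : ℝ))) *
            ‖tc U r i.1 (n + i.2 - l)‖
          ≤ (l.factorial : ℝ) / B ^ l * B ^ n *
            ((C ^ i.1 * (2 / r) ^ i.2) / ((i.1.factorial : ℝ) * ((n + i.2).factorial : ℝ))) *
            (C ^ i.1 * (2 / r) ^ (n + i.2 - l)) := by gcongr
        _ = _ := by
          rw [mul_pow]
          field_simp
    · rw [if_neg hl, mul_zero, norm_zero]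
      have := bet_nonneg hρ hB0 n i.2 l
      unfold bet at this
      positivity

theorem diag_sum {U V : ℂ → ℂ} {r C B : ℝ} (hr : 0 < r)
    (hU : DifferentiableOn ℂ U (Metric.ball 0 r))
    (hV : DifferentiableOn ℂ V (Metric.ball 0 r)) (hCU : ∀ τ ∈ Metric.ball (0 : ℂ) r, ‖U τ‖ ≤ C)
    (hCV : ∀ τ ∈ Metric.ball (0 : ℂ) r, ‖V τ‖ ≤ C) (hB : 2 * (2 / r) ≤ B) (n : ℕ) :
    Summable (fun l => ‖Mx B (fun t s => Complex.exp (t * s + V s⁻¹ * U t⁻¹)) l n -
      if l = n then Complex.exp (V 0 * U 0) else 0‖) ∧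
    ∑' l, ‖Mx B (fun t s => Complex.exp (t * s + V s⁻¹ * U t⁻¹)) l n -
      if l = n then Complex.exp (V 0 * U 0) else 0‖ ≤
      Real.exp (C * C) * ∑' l, ∑' q, bet (2 / r) B n q l := by
  have hρ : 0 < 2 / r := by positivity
  have h1 : Summable fun l => ∑' q, bet (2 / r) B n q l := by
    have h2 := (bet_summable hρ hB n).prod_symm
    exact h2.prod
  have h3 := h1.mul_left (Real.exp (C * C))
  have h4 : Summable (fun l => ‖Mx B (fun t s => Complex.exp (t * s + V s⁻¹ * U t⁻¹)) l n -
      if l = n then Complex.exp (V 0 * U 0) else 0‖) :=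
    Summable.of_nonneg_of_le (fun l => norm_nonneg _) (fun l => stepC hr hU hV hCU hCV hB l n) h3
  refine ⟨h4, ?_⟩
  rw [← tsum_mul_left]
  exact h4.tsum_le_tsum (fun l => stepC hr hU hV hCU hCV hB l n) h3

end DG

open DG Filter Topology in
theorem diag_thm : S_DIAG := by
  intro U V r C hr hU hV hCU hCV
  have hρ : 0 < 2 / r := by positivity
  have hE : 0 < Real.exp (C * C) := Real.exp_pos _
  refine ⟨max (2 * (2 / r)) (16 * (2 / r) * Real.exp (C * C)), fun B hB => ?_⟩
  have hB1 : 2 * (2 / r) ≤ B := (le_max_left _ _).trans hB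
  have hB2 : 16 * (2 / r) * Real.exp (C * C) ≤ B := (le_max_right _ _).trans hB
  have hB0 : 0 < B := by linarith
  constructor
  · intro n
    have h1 := (diag_sum hr hU hV hCU hCV hB1 n).1
    have h2 : Summable fun l : ℕ => ‖(if l = n then Complex.exp (V 0 * U 0) else 0 : ℂ)‖ := by
      apply summable_of_ne_finset_zero (s := {n})
      intro l hl
      rw [Finset.mem_singleton] at hl
      rw [if_neg hl, norm_zero]
    refine Summable.of_nonneg_of_le (fun l => norm_nonneg _) (fun l => ?_) (h1.add h2)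
    have := norm_add_le (Mx B (fun t s => Complex.exp (t * s + V s⁻¹ * U t⁻¹)) l n -
      if l = n then Complex.exp (V 0 * U 0) else 0)
      (if l = n then Complex.exp (V 0 * U 0) else 0)
    rw [sub_add_cancel] at this
    exact this
  · obtain ⟨N, hN⟩ := exists_nat_gt (16 * Real.exp (C * C) *
      ((2 / r) * B * Real.exp ((2 / r) * B)))
    refine ⟨max N 1, fun n hn => ?_⟩
    have hn1 : 1 ≤ n := (le_max_right _ _).trans hn
    have hnN : N ≤ n := (le_max_left _ _).trans hn
    have hn0 : (0 : ℝ) < n := by exact_mod_cast hn1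
    refine (diag_sum hr hU hV hCU hCV hB1 n).2.trans ?_
    refine (mul_le_mul_of_nonneg_left (bet_total hρ hB1 n hn1) hE.le).trans ?_
    have h1 : Real.exp (C * C) * (2 * ((2 / r) / B)) ≤ 1 / 8 := by
      have : (2 / r) / B * (16 * Real.exp (C * C)) ≤ 1 := by
        rw [div_mul_eq_mul_div, div_le_one hB0]
        linarith
      linarith
    have h2 : Real.exp (C * C) * (2 * (((2 / r) * B / n) * Real.exp ((2 / r) * B))) ≤ 1 / 8 := by
      have h3 : (N : ℝ) ≤ n := by exact_mod_cast hnN
      have h4 : 16 * Real.exp (C * C) * ((2 / r) * B * Real.exp ((2 / r) * B)) / n ≤ 1 := by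
        rw [div_le_one hn0]
        linarith
      have h5 : Real.exp (C * C) * (2 * (((2 / r) * B / n) * Real.exp ((2 / r) * B))) =
          (16 * Real.exp (C * C) * ((2 / r) * B * Real.exp ((2 / r) * B)) / n) / 8 := by
        ring
      rw [h5]
      linarith
    rw [mul_add]
    linarith

end Pool.Agent.Helper25.FB
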