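import Pool.Agent.Helper25.FB.Main
import Pool.Agent.Helper25.FB.DIAGc
import Pool.Agent.Helper6.FB.COL
import Pool.Agent.Helper6.FB.OFF
import Pool.Agent.Helper9.FB.ENDDIV
import Pool.Agent.Helper10.FB.END2
import Pool.Agent.Helper10.FB.ROOT
import Pool.Agent.Helper19.FB.FRED
import Pool.Agent.Helper19.FB.FUN
import Pool.Agent.Helper19.FB.UNI
import Pool.Agent.Helper21.FB.END1
import Pool.Agent.Helper21.FB.FAC
import Pool.Agent.Helper21.FB.LAU
import Pool.Agent.Helper21.FB.SUM
import Pool.Agent.Helper21.FB.ZERO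
import Pool.Agent.Helper57.FB.CJ

set_option autoImplicit false

/-!
# FB: assembly of the parts (MP_6e521b_an)
-/

namespace Pool.Agent.Helper25.FB

theorem main_all (hD : S_DIV1) : S_MAIN :=
  main_thm end1_thm end2_thm fun_thm cj_thm (sum_thm (fac_thm lau_thm)) (zero_thm lau_thm)
    (enddiv_thm hD root_thm) (col_thm (off_thm lau_thm (fac_thm lau_thm)) diag_thm) fred_thm
    uni_thm

end Pool.Agent.Helper25.FB
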