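import Pool.Agent.Helper25.FB.DIAGa

set_option autoImplicit false

/-! # FB, part DIAG: the diagonal blocks -/

namespace Pool.Agent.Helper25.FB.DG

open MeasureTheory Filter Topology

/-- the majorant -/
noncomputable def bet (ρ B : ℝ) (n q l : ℕ) : ℝ :=
  if l ≤ n + q ∧ ¬(l = n ∧ q = 0) then
    ((l.factorial : ℝ) / ((n + q).factorial : ℝ)) * (B ^ n / B ^ l) * ρ ^ q * ρ ^ (n + q - l)
  else 0

theorem bet_nonneg {ρ B : ℝ} (hρ : 0 < ρ) (hB : 0 < B) (n q l : ℕ) : 0 ≤ bet ρ B n q l := by
  unfold bet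
  split_ifs
  · positivity
  · exact le_rfl

theorem bet_sum {ρ B : ℝ} (hρ : 0 < ρ) (hB : 0 < B) (n q : ℕ) :
    ∑' l, bet ρ B n q l ≤ (ρ / B) ^ q * ((if q = 0 then 0 else 1) +
      (ρ * B / (max (n + q) 1 : ℕ)) * Real.exp (ρ * B)) := by
  have h0 : ∑' l, bet ρ B n q l = ∑ l ∈ Finset.range (n + q + 1), bet ρ B n q l := by
    apply tsum_eq_sum
    intro l hl
    unfold bet
    rw [if_neg]
    rintro ⟨h, -⟩
    exact hl (Finset.mem_range.2 (by omega))
  rw [h0, ← Finset.sum_range_reflect, Finset.sum_range_succ']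
  have h1 : bet ρ B n q (n + q + 1 - 1 - 0) ≤ (ρ / B) ^ q * (if q = 0 then 0 else 1) := by
    have e : n + q + 1 - 1 - 0 = n + q := by omega
    rw [e]
    unfold bet
    by_cases hq : q = 0
    · subst hq
      simp
    · rw [if_pos ⟨le_rfl, fun h => hq h.2⟩, if_neg hq, div_self (by positivity), Nat.sub_self,
        pow_zero, mul_one, mul_one, one_mul, pow_add, div_pow]
      apply le_of_eq
      field_simp
  have h2 : ∑ p ∈ Finset.range (n + q), bet ρ B n q (n + q + 1 - 1 - (p + 1)) ≤
      (ρ / B) ^ q * ((ρ * B / (max (n + q) 1 : ℕ)) * Real.exp (ρ * B)) := by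
    have h3 : ∀ p ∈ Finset.range (n + q), bet ρ B n q (n + q + 1 - 1 - (p + 1)) ≤
        (ρ / B) ^ q * (ρ * B / (max (n + q) 1 : ℕ)) * ((ρ * B) ^ p / (p.factorial : ℝ)) := by
      intro p hp
      rw [Finset.mem_range] at hp
      have e : n + q + 1 - 1 - (p + 1) = n + q - 1 - p := by omega
      rw [e]
      have emax : max (n + q) 1 = n + q := by omega
      rw [emax]
      unfold bet
      split_ifs with hc
      · have hf : ((n + q - 1 - p).factorial : ℝ) / ((n + q).factorial : ℝ) ≤
            1 / (((n + q : ℕ) : ℝ) * (p.factorial : ℝ)) := by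
          rw [div_le_div_iff₀ (by positivity) (by
            apply mul_pos
            · exact_mod_cast (by omega : 0 < n + q)
            · positivity)]
          have h5 := Nat.le_of_dvd (Nat.factorial_pos _)
            (Nat.factorial_mul_factorial_dvd_factorial (show p ≤ n + q - 1 by omega))
          have h6 : (n + q).factorial = (n + q) * (n + q - 1).factorial :=
            (Nat.mul_factorial_pred (by omega)).symm
          rw [one_mul, h6]
          have h7 : (n + q - 1 - p).factorial * ((n + q) * p.factorial) ≤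
              (n + q) * (n + q - 1).factorial := by
            calc (n + q - 1 - p).factorial * ((n + q) * p.factorial)
                = (n + q) * (p.factorial * (n + q - 1 - p).factorial) := by ring
              _ ≤ (n + q) * (n + q - 1).factorial := Nat.mul_le_mul_left _ h5
          exact_mod_cast h7
        have e2 : n + q - (n + q - 1 - p) = p + 1 := by omega
        rw [e2]
        have e3 : B ^ n / B ^ (n + q - 1 - p) = B ^ (p + 1) / B ^ q := by
          rw [div_eq_div_iff (by positivity) (by positivity), ← pow_add, ← pow_add]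
          congr 1
          omega
        rw [e3]
        have hnq : (0 : ℝ) < ((n + q : ℕ) : ℝ) := by exact_mod_cast (by omega : 0 < n + q)
        calc ((n + q - 1 - p).factorial : ℝ) / ((n + q).factorial : ℝ) * (B ^ (p + 1) / B ^ q) *
              ρ ^ q * ρ ^ (p + 1)
            ≤ 1 / (((n + q : ℕ) : ℝ) * (p.factorial : ℝ)) * (B ^ (p + 1) / B ^ q) *
              ρ ^ q * ρ ^ (p + 1) := by gcongr
          _ = (ρ / B) ^ q * (ρ * B / ((n + q : ℕ) : ℝ)) * ((ρ * B) ^ p / (p.factorial : ℝ)) := by
              rw [div_pow, mul_pow, pow_succ, pow_succ]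
              field_simp
      · positivity
    refine (Finset.sum_le_sum h3).trans ?_
    rw [← Finset.mul_sum, ← mul_assoc]
    exact mul_le_mul_of_nonneg_left (Real.sum_le_exp_of_nonneg (by positivity) _) (by positivity)
  rw [mul_add]
  linarith

theorem bet_summable {ρ B : ℝ} (hρ : 0 < ρ) (hB : 2 * ρ ≤ B) (n : ℕ) :
    Summable (fun x : ℕ × ℕ => bet ρ B n x.1 x.2) := by
  have hB0 : 0 < B := by linarith
  rw [summable_prod_of_nonneg (fun x => bet_nonneg hρ hB0 _ _ _)]
  constructor
  · intro q
    apply summable_of_ne_finset_zero (s := Finset.range (n + q + 1))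
    intro l hl
    unfold bet
    rw [if_neg]
    rintro ⟨h, -⟩
    exact hl (Finset.mem_range.2 (by omega))
  · have hgeo : Summable fun q : ℕ => (ρ / B) ^ q * (1 + ρ * B * Real.exp (ρ * B)) := by
      apply Summable.mul_right
      apply summable_geometric_of_lt_one (by positivity)
      rw [div_lt_one hB0]
      linarith
    refine Summable.of_nonneg_of_le (fun q => tsum_nonneg fun l => bet_nonneg hρ hB0 _ _ _)
      (fun q => ?_) hgeo
    refine (bet_sum hρ hB0 n q).trans ?_
    apply mul_le_mul_of_nonneg_left _ (by positivity)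
    have h1 : (if q = 0 then (0:ℝ) else 1) ≤ 1 := by split_ifs <;> norm_num
    have h2 : ρ * B / ((max (n + q) 1 : ℕ) : ℝ) ≤ ρ * B := by
      apply div_le_self (by positivity)
      exact_mod_cast le_max_right _ _
    have h3 : ρ * B / ((max (n + q) 1 : ℕ) : ℝ) * Real.exp (ρ * B) ≤
        ρ * B * Real.exp (ρ * B) := mul_le_mul_of_nonneg_right h2 (Real.exp_pos _).le
    linarith

theorem bet_total {ρ B : ℝ} (hρ : 0 < ρ) (hB : 2 * ρ ≤ B) (n : ℕ) (hn : 1 ≤ n) :
    ∑' l, ∑' q, bet ρ B n q l ≤ 2 * (ρ / B) + 2 * ((ρ * B / n) * Real.exp (ρ * B)) := by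
  have hB0 : 0 < B := by linarith
  have hx : ρ / B ≤ 1 / 2 := by
    rw [div_le_div_iff₀ hB0 (by norm_num)]
    linarith
  have hx0 : 0 ≤ ρ / B := by positivity
  have hs := bet_summable hρ hB n
  have h1 : ∑' l, ∑' q, bet ρ B n q l = ∑' q, ∑' l, bet ρ B n q l := by
    have := Summable.tsum_comm (f := fun q l => bet ρ B n q l) hs
    exact this
  rw [h1]
  have hgeo : Summable fun q : ℕ => (ρ / B) ^ q :=
    summable_geometric_of_lt_one hx0 (by linarith)
  have hgeo' : Summable fun q : ℕ => (ρ / B) ^ (q + 1) := (summable_nat_add_iff 1).2 hgeo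
  have hE : 0 ≤ (ρ * B / n) * Real.exp (ρ * B) := by positivity
  have hbound : ∀ q, ∑' l, bet ρ B n q l ≤ (if q = 0 then 0 else (ρ / B) ^ q) +
      (ρ / B) ^ q * ((ρ * B / n) * Real.exp (ρ * B)) := by
    intro q
    refine (bet_sum hρ hB0 n q).trans ?_
    rw [mul_add]
    apply add_le_add
    · split_ifs <;> simp
    · apply mul_le_mul_of_nonneg_left _ (by positivity)
      apply mul_le_mul_of_nonneg_right _ (Real.exp_pos _).le
      apply div_le_div_of_nonneg_left (by positivity) (by exact_mod_cast hn)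
      exact_mod_cast (by omega : n ≤ max (n + q) 1)
  have hsum1 : HasSum (fun q : ℕ => if q = 0 then (0:ℝ) else (ρ / B) ^ q)
      (ρ / B * (1 - ρ / B)⁻¹) := by
    have h2 : HasSum (fun q : ℕ => (ρ / B) ^ (q + 1)) (ρ / B * (1 - ρ / B)⁻¹) := by
      have h3 := (hasSum_geometric_of_lt_one hx0 (by linarith)).mul_left (ρ / B)
      refine h3.congr_fun ?_
      intro q
      rw [pow_succ]
      ring
    have h4 := (hasSum_nat_add_iff (f := fun q : ℕ => if q = 0 then (0:ℝ) else (ρ / B) ^ q) 1
      (g := ρ / B * (1 - ρ / B)⁻¹)).1 (by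
        simpa using h2)
    simpa using h4
  have hsum2 := (hasSum_geometric_of_lt_one hx0 (by linarith : ρ / B < 1)).mul_right
    ((ρ * B / n) * Real.exp (ρ * B))
  have hinv : (1 - ρ / B)⁻¹ ≤ 2 := by
    rw [inv_le_comm₀ (by linarith) (by norm_num)]
    linarith
  have hSq : Summable fun q => ∑' l, bet ρ B n q l :=
    Summable.of_nonneg_of_le (fun q => tsum_nonneg fun l => bet_nonneg hρ hB0 _ _ _) hbound
      (hsum1.summable.add hsum2.summable)
  calc ∑' q, ∑' l, bet ρ B n q l ≤ ρ / B * (1 - ρ / B)⁻¹ +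
        (1 - ρ / B)⁻¹ * ((ρ * B / n) * Real.exp (ρ * B)) := by
        rw [← (hsum1.add hsum2).tsum_eq]
        exact hSq.tsum_le_tsum hbound (hsum1.add hsum2).summable
    _ ≤ ρ / B * 2 + 2 * ((ρ * B / n) * Real.exp (ρ * B)) := by
        apply add_le_add
        · exact mul_le_mul_of_nonneg_left hinv hx0
        · exact mul_le_mul_of_nonneg_right hinv hE
    _ = _ := by ring

end Pool.Agent.Helper25.FB.DG
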