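import Pool.Agent.Helper25.FB.Spec

set_option autoImplicit false

/-! # FB, part DIAG: tools -/

namespace Pool.Agent.Helper25.FB.DG

open MeasureTheory Filter Topology

theorem hs_congr {ι : Type} {f g : ι → ℂ} {a : ℂ} (h : HasSum f a) (hfg : ∀ i, g i = f i) :
    HasSum g a := by
  have : g = f := funext hfg
  rw [this]
  exact h

theorem lc_bound (R M : ℝ) (hR : 0 < R) (φ : ℂ → ℂ) (n : ℤ) (h : ∀ s : ℂ, ‖s‖ = R → ‖φ s‖ ≤ M) :
    ‖Lc R φ n‖ ≤ M * R ^ (-n) := by
  have h1 := circleIntegral.norm_two_pi_i_inv_smul_integral_le_of_norm_le_const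
    (f := fun s : ℂ => φ s * s ^ (-n - 1)) (c := 0) (R := R) (C := M * R ^ (-n - 1)) hR.le (by
      intro s hs
      rw [mem_sphere_zero_iff_norm] at hs
      rw [norm_mul, norm_zpow, hs]
      exact mul_le_mul_of_nonneg_right (h s hs) (zpow_nonneg hR.le _))
  unfold Lc
  rw [smul_eq_mul] at h1
  refine h1.trans (le_of_eq ?_)
  have h2 : R ^ (-n) = R ^ (-n - 1) * R := by
    rw [← zpow_add_one₀ hR.ne']
    congr 1
    ring
  rw [h2]
  ring

theorem zpow_cont (R : ℝ) (hR : 0 < R) (k : ℤ) :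
    ContinuousOn (fun s : ℂ => s ^ k) (Metric.sphere 0 R) := by
  intro t ht
  rw [mem_sphere_zero_iff_norm] at ht
  have ht0 : t ≠ 0 := by
    rw [← norm_pos_iff, ht]; exact hR
  exact (continuousAt_zpow₀ t _ (Or.inl ht0)).continuousWithinAt

theorem lc_sum {ι : Type} [Countable ι] (R : ℝ) (hR : 0 < R) (φ : ι → ℂ → ℂ) (ψ : ℂ → ℂ)
    (b : ι → ℝ) (n : ℤ) (hc : ∀ i, ContinuousOn (φ i) (Metric.sphere 0 R))
    (hb : ∀ i (s : ℂ), ‖s‖ = R → ‖φ i s‖ ≤ b i) (hbs : Summable b)
    (hs : ∀ s : ℂ, ‖s‖ = R → HasSum (fun i => φ i s) (ψ s)) :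
    HasSum (fun i => Lc R (φ i) n) (Lc R ψ n) := by
  unfold Lc circleIntegral
  apply HasSum.mul_left
  have hcirc : ∀ θ : ℝ, ‖circleMap (0 : ℂ) R θ‖ = R := by
    intro θ
    rw [norm_circleMap_zero, abs_of_pos hR]
  apply intervalIntegral.hasSum_integral_of_dominated_convergence
    (fun i _ => b i * (R * R ^ (-n - 1)))
  · intro i
    apply Continuous.aestronglyMeasurable
    have h1 : Continuous fun θ : ℝ => φ i (circleMap 0 R θ) :=
      (hc i).comp_continuous (continuous_circleMap 0 R) (fun θ => by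
        rw [mem_sphere_zero_iff_norm]; exact hcirc θ)
    have h2 : Continuous fun θ : ℝ => (circleMap (0 : ℂ) R θ) ^ (-n - 1) :=
      (zpow_cont R hR (-n - 1)).comp_continuous (continuous_circleMap 0 R) (fun θ => by
        rw [mem_sphere_zero_iff_norm]; exact hcirc θ)
    simp only [deriv_circleMap, smul_eq_mul]
    exact ((continuous_circleMap 0 R).mul continuous_const).mul (h1.mul h2)
  · intro i
    refine Eventually.of_forall fun θ _ => ?_
    rw [norm_smul, deriv_circleMap, norm_mul, Complex.norm_I, mul_one, hcirc, norm_mul,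
      norm_zpow, hcirc]
    calc R * (‖φ i (circleMap 0 R θ)‖ * R ^ (-n - 1)) ≤ R * (b i * R ^ (-n - 1)) := by
          apply mul_le_mul_of_nonneg_left _ hR.le
          exact mul_le_mul_of_nonneg_right (hb i _ (hcirc θ)) (zpow_nonneg hR.le _)
      _ = b i * (R * R ^ (-n - 1)) := by ring
  · exact Eventually.of_forall fun θ _ => hbs.mul_right _
  · exact intervalIntegrable_const
  · refine Eventually.of_forall fun θ _ => ?_
    simp only [smul_eq_mul]
    exact ((hs _ (hcirc θ)).mul_right _).mul_left _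

theorem lc_mono (R : ℝ) (hR : 0 < R) (k n : ℤ) :
    Lc R (fun s => s ^ k) n = if k = n then 1 else 0 := by
  unfold Lc
  have h1 : (∮ s in C(0, R), s ^ k * s ^ (-n - 1)) = ∮ s in C(0, R), (s - 0) ^ (k - n - 1) := by
    apply circleIntegral.integral_congr hR.le
    intro s hs
    rw [mem_sphere_zero_iff_norm] at hs
    have hs0 : s ≠ 0 := by
      rw [← norm_pos_iff, hs]; exact hR
    simp only [sub_zero]
    rw [← zpow_add₀ hs0]
    congr 1
    ring
  rw [h1]
  split_ifs with h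
  · subst h
    have h2 : (∮ s in C(0, R), (s - 0) ^ (k - k - 1)) = ∮ s in C(0, R), ((s : ℂ) - 0)⁻¹ := by
      congr 1
      funext s
      rw [sub_self, zero_sub, zpow_neg_one]
    rw [h2, circleIntegral.integral_sub_center_inv 0 hR.ne']
    exact inv_mul_cancel₀ (by
      apply mul_ne_zero
      · exact_mod_cast Real.two_pi_pos.ne'
      · exact Complex.I_ne_zero)
  · rw [circleIntegral.integral_sub_zpow_of_ne (by
      intro h2
      apply h
      omega), mul_zero]

theorem lc_const_mul (R : ℝ) (c : ℂ) (φ : ℂ → ℂ) (n : ℤ) :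
    Lc R (fun s => c * φ s) n = c * Lc R φ n := by
  unfold Lc
  have h1 : (∮ s in C(0, R), c * φ s * s ^ (-n - 1)) = c * ∮ s in C(0, R), φ s * s ^ (-n - 1) := by
    rw [← circleIntegral.integral_const_mul]
    congr 1
    funext s
    ring
  rw [h1]
  ring

theorem lc_congr (R : ℝ) (hR : 0 < R) (φ ψ : ℂ → ℂ) (n : ℤ) (h : ∀ s : ℂ, ‖s‖ = R → φ s = ψ s) :
    Lc R φ n = Lc R ψ n := by
  unfold Lc
  congr 1
  apply circleIntegral.integral_congr hR.le
  intro s hs
  rw [mem_sphere_zero_iff_norm] at hs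
  simp only
  rw [h s hs]

theorem lc_exp (R : ℝ) (hR : 0 < R) (t : ℂ) (q n : ℕ) :
    Lc R (fun s => Complex.exp (t * s) * s ^ (-(q : ℤ))) n =
      t ^ (n + q) / ((n + q).factorial : ℂ) := by
  have h1 := lc_sum R hR (fun (N : ℕ) s => t ^ N / (N.factorial : ℂ) * s ^ ((N : ℤ) - q))
    (fun s => Complex.exp (t * s) * s ^ (-(q : ℤ)))
    (fun N => (‖t‖ * R) ^ N / (N.factorial : ℝ) * R ^ (-(q : ℤ))) n
    (fun N => continuousOn_const.mul (zpow_cont R hR _))
    (by
      intro N s hs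
      rw [norm_mul, norm_div, norm_pow, Complex.norm_natCast, norm_zpow, hs, zpow_sub₀ hR.ne',
        zpow_natCast, zpow_neg, mul_pow]
      apply le_of_eq
      ring)
    ((Real.summable_pow_div_factorial _).mul_right _)
    (by
      intro s hs
      have hs0 : s ≠ 0 := by
        rw [← norm_pos_iff, hs]; exact hR
      have h2 : HasSum (fun N : ℕ => (t * s) ^ N / (N.factorial : ℂ)) (Complex.exp (t * s)) := by
        rw [Complex.exp_eq_exp_ℂ]
        exact NormedSpace.expSeries_div_hasSum_exp (t * s)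
      have h3 := h2.mul_right (s ^ (-(q : ℤ)))
      refine hs_congr h3 fun N => ?_
      rw [mul_pow, zpow_sub₀ hs0, zpow_natCast, zpow_neg]
      ring)
  have h4 : (fun N : ℕ => Lc R (fun s => t ^ N / (N.factorial : ℂ) * s ^ ((N : ℤ) - q)) n) =
      fun N : ℕ => if N = n + q then t ^ (n + q) / ((n + q).factorial : ℂ) else 0 := by
    funext N
    rw [lc_const_mul, lc_mono R hR]
    by_cases h : N = n + q
    · rw [if_pos h, if_pos (by omega), mul_one, h]
    · rw [if_neg h, if_neg (by omega), mul_zero]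
  rw [h4] at h1
  exact h1.unique (hasSum_ite_eq (n + q) (t ^ (n + q) / ((n + q).factorial : ℂ)))

/-- Taylor expansion -/
theorem tay (f : ℂ → ℂ) (r : ℝ) (hr : 0 < r) (hf : DifferentiableOn ℂ f (Metric.ball 0 r))
    (σ : ℂ) (hσ : ‖σ‖ < r / 2) : HasSum (fun q : ℕ => Lc (r / 2) f q * σ ^ q) (f σ) := by
  have hR : 0 < r / 2 := by linarith
  have hd : DifferentiableOn ℂ f (Metric.closedBall 0 ((⟨r / 2, hR.le⟩ : NNReal) : ℝ)) :=
    hf.mono (Metric.closedBall_subset_ball (by
      change r / 2 < r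
      linarith))
  have h1 := hd.hasFPowerSeriesOnBall (R := ⟨r / 2, hR.le⟩) (c := 0) hR
  have h2 := h1.hasSum (y := σ) (by
    rw [Metric.eball_coe]
    rw [mem_ball_zero_iff]
    exact hσ)
  rw [zero_add] at h2
  refine hs_congr h2 fun q => ?_
  rw [cauchyPowerSeries_apply]
  unfold Lc
  change _ = (2 * ↑Real.pi * Complex.I)⁻¹ • ∮ (z : ℂ) in C(0, r / 2), (σ / (z - 0)) ^ q • (z - 0)⁻¹ • f z
  have h3 : (∮ (z : ℂ) in C(0, r / 2), (σ / (z - 0)) ^ q • (z - 0)⁻¹ • f z) =
      (∮ s in C(0, r / 2), f s * s ^ (-(q : ℤ) - 1)) * σ ^ q := by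
    rw [mul_comm, ← circleIntegral.integral_const_mul]
    apply circleIntegral.integral_congr hR.le
    intro s hs
    rw [mem_sphere_zero_iff_norm] at hs
    have hs0 : s ≠ 0 := by
      rw [← norm_pos_iff, hs]; exact hR
    simp only [sub_zero, smul_eq_mul]
    rw [div_pow, zpow_sub_one₀ hs0, zpow_neg, zpow_natCast]
    field_simp
  rw [h3, smul_eq_mul]
  ring

theorem tay_zero (f : ℂ → ℂ) (r : ℝ) (hr : 0 < r) (hf : DifferentiableOn ℂ f (Metric.ball 0 r)) :
    Lc (r / 2) f (0 : ℕ) = f 0 := by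
  have h1 := tay f r hr hf 0 (by rw [norm_zero]; linarith)
  have h2 : HasSum (fun q : ℕ => Lc (r / 2) f q * (0 : ℂ) ^ q) (Lc (r / 2) f (0 : ℕ) * 0 ^ 0) :=
    hasSum_single 0 (fun q hq => by rw [zero_pow hq, mul_zero])
  rw [pow_zero, mul_one] at h2
  exact h2.unique h1

theorem lc_inv (f : ℂ → ℂ) (r C B : ℝ) (hr : 0 < r) (hf : DifferentiableOn ℂ f (Metric.ball 0 r))
    (hC : ∀ τ ∈ Metric.ball (0 : ℂ) r, ‖f τ‖ ≤ C) (hB : 2 / r < B) (N l : ℕ) :
    Lc B (fun t => f t⁻¹ * t ^ N) l =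
      if l ≤ N then Lc (r / 2) f ((N - l : ℕ) : ℤ) else 0 := by
  have hR : 0 < r / 2 := by linarith
  have hB0 : 0 < B := lt_trans (by positivity) hB
  have hC0 : 0 ≤ C := (norm_nonneg _).trans (hC 0 (Metric.mem_ball_self hr))
  have hBr : B⁻¹ < r / 2 := by
    rw [inv_lt_comm₀ hB0 hR]
    rw [inv_div]
    exact hB
  have hbd : ∀ q : ℕ, ‖Lc (r / 2) f q‖ ≤ C * (2 / r) ^ q := by
    intro q
    refine (lc_bound (r / 2) C hR f q (fun s hs => hC s (by
      rw [mem_ball_zero_iff, hs]; linarith))).trans (le_of_eq ?_)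
    rw [zpow_neg, zpow_natCast, ← inv_pow, inv_div]
  have h1 := lc_sum B hB0 (fun (p : ℕ) t => Lc (r / 2) f p * t ^ ((N : ℤ) - p))
    (fun t => f t⁻¹ * t ^ N) (fun p => C * (2 / r) ^ p * (B ^ N * (B⁻¹) ^ p)) l
    (fun p => continuousOn_const.mul (zpow_cont B hB0 _))
    (by
      intro p s hs
      rw [norm_mul, norm_zpow, hs, zpow_sub₀ hB0.ne', zpow_natCast, zpow_natCast,
        div_eq_mul_inv (B ^ N), inv_pow]
      exact mul_le_mul_of_nonneg_right (hbd p) (by positivity))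
    (by
      have h2 : Summable fun p : ℕ => (C * B ^ N) * ((2 / r) * B⁻¹) ^ p := by
        apply Summable.mul_left
        apply summable_geometric_of_lt_one (by positivity)
        rw [← div_eq_mul_inv, div_lt_one hB0]
        exact hB
      refine h2.congr fun p => ?_
      rw [mul_pow]
      ring)
    (by
      intro t ht
      have ht0 : t ≠ 0 := by
        rw [← norm_pos_iff, ht]; exact hB0
      have h2 := (tay f r hr hf t⁻¹ (by rw [norm_inv, ht]; exact hBr)).mul_right (t ^ N)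
      refine hs_congr h2 fun p => ?_
      rw [zpow_sub₀ ht0, zpow_natCast, zpow_natCast, inv_pow]
      ring)
  have h4 : (fun p : ℕ => Lc B (fun t => Lc (r / 2) f p * t ^ ((N : ℤ) - p)) l) =
      fun p : ℕ => if p = N - l then (if l ≤ N then Lc (r / 2) f ((N - l : ℕ) : ℤ) else 0)
        else 0 := by
    funext p
    rw [lc_const_mul, lc_mono B hB0]
    by_cases hl : l ≤ N
    · by_cases h : p = N - l
      · rw [if_pos h, if_pos (by omega), mul_one, if_pos hl, h]
      · rw [if_neg h, if_neg (by omega), mul_zero]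
    · rw [if_neg (by omega), mul_zero, if_neg hl, ite_self]
  rw [h4] at h1
  exact h1.unique (hasSum_ite_eq (N - l) _)

end Pool.Agent.Helper25.FB.DG
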