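import Pool.Agent.Helper25.FB.DIAG

set_option autoImplicit false

/-! # FB, part DIAG: the diagonal blocks, end of the proof -/

namespace Pool.Agent.Helper25.FB.DG

open MeasureTheory Filter Topology

section

variable (U V : ℂ → ℂ) (r C B : ℝ)

/-- Taylor coefficients of the powers -/
noncomputable def tc (f : ℂ → ℂ) (r : ℝ) (a q : ℕ) : ℂ := Lc (r / 2) (fun σ => f σ ^ a) q

variable {U V r C B}

theorem tc_bound {f : ℂ → ℂ} (hr : 0 < r) (hC : ∀ τ ∈ Metric.ball (0 : ℂ) r, ‖f τ‖ ≤ C)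
    (a q : ℕ) : ‖tc f r a q‖ ≤ C ^ a * (2 / r) ^ q := by
  have hR : 0 < r / 2 := by linarith
  refine (lc_bound (r / 2) (C ^ a) hR _ q (fun s hs => ?_)).trans (le_of_eq ?_)
  · rw [norm_pow]
    exact pow_le_pow_left₀ (norm_nonneg _) (hC s (by rw [mem_ball_zero_iff, hs]; linarith)) a
  · rw [zpow_neg, zpow_natCast, ← inv_pow, inv_div]

/-- the expansion in `s` -/
theorem stepA (hr : 0 < r) (hU : DifferentiableOn ℂ U (Metric.ball 0 r))
    (hV : DifferentiableOn ℂ V (Metric.ball 0 r)) (hCU : ∀ τ ∈ Metric.ball (0 : ℂ) r, ‖U τ‖ ≤ C)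
    (hCV : ∀ τ ∈ Metric.ball (0 : ℂ) r, ‖V τ‖ ≤ C) (hB : 2 / r < B) (n : ℕ) (t : ℂ)
    (ht : ‖t‖ = B) :
    HasSum (fun i : ℕ × ℕ => (U t⁻¹) ^ i.1 / (i.1.factorial : ℂ) * tc V r i.1 i.2 *
      (t ^ (n + i.2) / ((n + i.2).factorial : ℂ)))
      (Lc B (fun s => Complex.exp (t * s + V s⁻¹ * U t⁻¹)) n) := by
  have hR : 0 < r / 2 := by linarith
  have hB0 : 0 < B := lt_trans (by positivity) hB
  have hC0 : 0 ≤ C := (norm_nonneg _).trans (hCU 0 (Metric.mem_ball_self hr))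
  have hBr : B⁻¹ < r / 2 := by
    rw [inv_lt_comm₀ hB0 hR, inv_div]
    exact hB
  have hmem : ∀ s : ℂ, ‖s‖ = B → s⁻¹ ∈ Metric.ball (0 : ℂ) r := by
    intro s hs
    rw [mem_ball_zero_iff, norm_inv, hs]
    linarith
  have hbs : Summable fun i : ℕ × ℕ => ((C * C) ^ i.1 / (i.1.factorial : ℝ)) *
      ((2 / r) * B⁻¹) ^ i.2 := by
    apply Summable.mul_of_nonneg (Real.summable_pow_div_factorial _)
    · apply summable_geometric_of_lt_one (by positivity)
      rw [← div_eq_mul_inv, div_lt_one hB0]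
      exact hB
    · intro a; positivity
    · intro a; positivity
  have hbd : ∀ (i : ℕ × ℕ) (s : ℂ), ‖s‖ = B →
      ‖(U t⁻¹) ^ i.1 / (i.1.factorial : ℂ) * tc V r i.1 i.2 * s⁻¹ ^ i.2‖ ≤
        ((C * C) ^ i.1 / (i.1.factorial : ℝ)) * ((2 / r) * B⁻¹) ^ i.2 := by
    intro i s hs
    rw [norm_mul, norm_mul, norm_div, norm_pow, Complex.norm_natCast, norm_pow, norm_inv, hs,
      mul_pow, mul_pow]
    have h1 : ‖U t⁻¹‖ ^ i.1 ≤ C ^ i.1 :=
      pow_le_pow_left₀ (norm_nonneg _) (hCU _ (hmem t ht)) _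
    have h2 := tc_bound hr hCV i.1 i.2
    calc ‖U t⁻¹‖ ^ i.1 / (i.1.factorial : ℝ) * ‖tc V r i.1 i.2‖ * B⁻¹ ^ i.2
        ≤ C ^ i.1 / (i.1.factorial : ℝ) * (C ^ i.1 * (2 / r) ^ i.2) * B⁻¹ ^ i.2 := by gcongr
      _ = _ := by ring
  -- pointwise expansion
  have hpt : ∀ s : ℂ, ‖s‖ = B → HasSum (fun i : ℕ × ℕ =>
      (U t⁻¹) ^ i.1 / (i.1.factorial : ℂ) * tc V r i.1 i.2 * s⁻¹ ^ i.2)
      (Complex.exp (V s⁻¹ * U t⁻¹)) := by
    intro s hs
    have hsum : Summable (fun i : ℕ × ℕ =>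
        (U t⁻¹) ^ i.1 / (i.1.factorial : ℂ) * tc V r i.1 i.2 * s⁻¹ ^ i.2) :=
      Summable.of_norm_bounded hbs (fun i => hbd i s hs)
    have h1 : ∀ a : ℕ, HasSum (fun q : ℕ =>
        (U t⁻¹) ^ a / (a.factorial : ℂ) * tc V r a q * s⁻¹ ^ q)
        ((U t⁻¹) ^ a / (a.factorial : ℂ) * V s⁻¹ ^ a) := by
      intro a
      have h2 := (tay (fun σ => V σ ^ a) r hr (hV.pow a) s⁻¹ (by
        rw [norm_inv, hs]; exact hBr)).mul_left ((U t⁻¹) ^ a / (a.factorial : ℂ))
      refine hs_congr h2 fun q => ?_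
      unfold tc
      ring
    have h3 := hsum.hasSum.prod_fiberwise h1
    have h4 : HasSum (fun a : ℕ => (U t⁻¹) ^ a / (a.factorial : ℂ) * V s⁻¹ ^ a)
        (Complex.exp (V s⁻¹ * U t⁻¹)) := by
      have h5 : HasSum (fun a : ℕ => (V s⁻¹ * U t⁻¹) ^ a / (a.factorial : ℂ))
          (Complex.exp (V s⁻¹ * U t⁻¹)) := by
        rw [Complex.exp_eq_exp_ℂ]
        exact NormedSpace.expSeries_div_hasSum_exp (V s⁻¹ * U t⁻¹)
      refine hs_congr h5 fun a => ?_
      rw [mul_pow]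
      ring
    rw [← h3.unique h4]
    exact hsum.hasSum
  have h1 := lc_sum B hB0 (fun (i : ℕ × ℕ) s =>
      ((U t⁻¹) ^ i.1 / (i.1.factorial : ℂ) * tc V r i.1 i.2) *
        (Complex.exp (t * s) * s ^ (-(i.2 : ℤ))))
    (fun s => Complex.exp (t * s + V s⁻¹ * U t⁻¹))
    (fun i => ((C * C) ^ i.1 / (i.1.factorial : ℝ)) * ((2 / r) * B⁻¹) ^ i.2 *
      Real.exp (B * B)) n
    (fun i => continuousOn_const.mul ((by fun_prop : Continuous fun s : ℂ =>
      Complex.exp (t * s)).continuousOn.mul (zpow_cont B hB0 _)))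
    (by
      intro i s hs
      have hs0 : s ≠ 0 := by
        rw [← norm_pos_iff, hs]; exact hB0
      have e1 : (U t⁻¹) ^ i.1 / (i.1.factorial : ℂ) * tc V r i.1 i.2 *
          (Complex.exp (t * s) * s ^ (-(i.2 : ℤ))) =
          (U t⁻¹) ^ i.1 / (i.1.factorial : ℂ) * tc V r i.1 i.2 * s⁻¹ ^ i.2 *
            Complex.exp (t * s) := by
        rw [zpow_neg, zpow_natCast, inv_pow]
        ring
      rw [e1, norm_mul]
      apply mul_le_mul (hbd i s hs) _ (norm_nonneg _) (by positivity)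
      rw [Complex.norm_exp]
      apply Real.exp_le_exp.2
      refine (Complex.re_le_norm _).trans ?_
      rw [norm_mul, ht, hs])
    (hbs.mul_right _)
    (by
      intro s hs
      have h2 := (hpt s hs).mul_right (Complex.exp (t * s))
      rw [← Complex.exp_add, add_comm] at h2
      refine hs_congr h2 fun i => ?_
      rw [zpow_neg, zpow_natCast, inv_pow]
      ring)
  refine hs_congr h1 fun i => ?_
  rw [lc_const_mul, lc_exp B hB0]

/-- the expansion of the matrix entries -/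
theorem stepB (hr : 0 < r) (hU : DifferentiableOn ℂ U (Metric.ball 0 r))
    (hV : DifferentiableOn ℂ V (Metric.ball 0 r)) (hCU : ∀ τ ∈ Metric.ball (0 : ℂ) r, ‖U τ‖ ≤ C)
    (hCV : ∀ τ ∈ Metric.ball (0 : ℂ) r, ‖V τ‖ ≤ C) (hB : 2 / r < B) (l n : ℕ) :
    HasSum (fun i : ℕ × ℕ => (l.factorial : ℂ) / (B : ℂ) ^ l * (B : ℂ) ^ n *
      (tc V r i.1 i.2 / ((i.1.factorial : ℂ) * ((n + i.2).factorial : ℂ))) *
        (if l ≤ n + i.2 then tc U r i.1 (n + i.2 - l) else 0))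
      (Mx B (fun t s => Complex.exp (t * s + V s⁻¹ * U t⁻¹)) l n) := by
  have hR : 0 < r / 2 := by linarith
  have hB0 : 0 < B := lt_trans (by positivity) hB
  have hC0 : 0 ≤ C := (norm_nonneg _).trans (hCU 0 (Metric.mem_ball_self hr))
  have hBr : B⁻¹ < r / 2 := by
    rw [inv_lt_comm₀ hB0 hR, inv_div]
    exact hB
  have hmem : ∀ s : ℂ, ‖s‖ = B → s⁻¹ ∈ Metric.ball (0 : ℂ) r := by
    intro s hs
    rw [mem_ball_zero_iff, norm_inv, hs]
    linarith
  have hUc : ContinuousOn (fun t : ℂ => U t⁻¹) (Metric.sphere 0 B) := by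
    apply hU.continuousOn.comp (t := Metric.ball 0 r)
    · apply continuousOn_inv₀.mono
      intro s hs
      rw [mem_sphere_zero_iff_norm] at hs
      rw [Set.mem_compl_singleton_iff, ← norm_pos_iff, hs]
      exact hB0
    · intro s hs
      rw [mem_sphere_zero_iff_norm] at hs
      exact hmem s hs
  have h1 := lc_sum B hB0 (fun (i : ℕ × ℕ) t =>
      ((B : ℂ) ^ n * (tc V r i.1 i.2 / ((i.1.factorial : ℂ) * ((n + i.2).factorial : ℂ)))) *
        ((U t⁻¹) ^ i.1 * t ^ (n + i.2)))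
    (fun t => (B : ℂ) ^ n * Lc B (fun s => Complex.exp (t * s + V s⁻¹ * U t⁻¹)) n)
    (fun i => B ^ n * B ^ n * (((C * C) ^ i.1 / (i.1.factorial : ℝ)) *
      (((2 / r) * B) ^ i.2 / (i.2.factorial : ℝ)))) l
    (fun i => continuousOn_const.mul ((hUc.pow i.1).mul (continuous_pow _).continuousOn))
    (by
      intro i t ht
      rw [norm_mul, norm_mul, norm_pow, Complex.norm_real, Real.norm_of_nonneg hB0.le, norm_div,
        norm_mul, Complex.norm_natCast, Complex.norm_natCast, norm_mul, norm_pow, norm_pow, ht]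
      have h1 : ‖U t⁻¹‖ ^ i.1 ≤ C ^ i.1 :=
        pow_le_pow_left₀ (norm_nonneg _) (hCU _ (hmem t ht)) _
      have h2 := tc_bound hr hCV i.1 i.2
      have h3 : (i.2.factorial : ℝ) ≤ ((n + i.2).factorial : ℝ) := by
        exact_mod_cast Nat.factorial_le (by omega)
      calc B ^ n * (‖tc V r i.1 i.2‖ / ((i.1.factorial : ℝ) * ((n + i.2).factorial : ℝ))) *
            (‖U t⁻¹‖ ^ i.1 * B ^ (n + i.2))
          ≤ B ^ n * ((C ^ i.1 * (2 / r) ^ i.2) / ((i.1.factorial : ℝ) * (i.2.factorial : ℝ))) *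
            (C ^ i.1 * B ^ (n + i.2)) := by gcongr
        _ = _ := by
          rw [pow_add, mul_pow, mul_pow]
          field_simp)
    (by
      apply Summable.mul_left
      apply Summable.mul_of_nonneg (Real.summable_pow_div_factorial _)
        (Real.summable_pow_div_factorial _)
      · intro a; positivity
      · intro a; positivity)
    (by
      intro t ht
      have h2 := (stepA hr hU hV hCU hCV hB n t ht).mul_left ((B : ℂ) ^ n)
      refine hs_congr h2 fun i => ?_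
      have e1 : (i.1.factorial : ℂ) ≠ 0 := by exact_mod_cast Nat.factorial_ne_zero _
      have e2 : ((n + i.2).factorial : ℂ) ≠ 0 := by exact_mod_cast Nat.factorial_ne_zero _
      field_simp)
  have h2 := h1.mul_left ((l.factorial : ℂ) / (B : ℂ) ^ l)
  refine hs_congr h2 fun i => ?_
  rw [lc_const_mul, lc_inv (fun σ => U σ ^ i.1) r (C ^ i.1) B hr (hU.pow _)
    (fun τ hτ => by
      rw [norm_pow]
      exact pow_le_pow_left₀ (norm_nonneg _) (hCU τ hτ) _) hB (n + i.2) l]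
  unfold tc
  ring

end

end Pool.Agent.Helper25.FB.DG
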