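import Pool.Agent.Helper25.FB.Spec

set_option autoImplicit false

/-! # FB: the ends, and the assembly of the parts -/

namespace Pool.Agent.Helper25.FB

open Inj Filter Topology

theorem end_thm (h1 : S_END1) (h2 : S_END2) : S_END := by
  intro P hR h0
  obtain ⟨p, q, hu, hp, hs, hz⟩ := h1 P hR h0
  choose r C V hr hhol hbd hzero using fun j => h2 P (p j) (q j) hR (hu j) (hz j)
  have hrs : ∀ j, (r j)⁻¹ ≤ ∑ j, (r j)⁻¹ + 1 := by
    intro j
    have := Finset.single_le_sum (f := fun j => (r j)⁻¹) (fun i _ => (inv_pos.2 (hr i)).le)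
      (Finset.mem_univ j)
    linarith
  have hpos : 0 < ∑ j, (r j)⁻¹ + 1 := by
    have : 0 ≤ ∑ j, (r j)⁻¹ := Finset.sum_nonneg fun i _ => (inv_pos.2 (hr i)).le
    linarith
  have hle : ∀ j, (∑ j, (r j)⁻¹ + 1)⁻¹ ≤ r j := by
    intro j
    rw [inv_le_comm₀ hpos (hr j)]
    exact hrs j
  have hsub : ∀ j, Metric.ball (0 : ℂ) ((∑ j, (r j)⁻¹ + 1)⁻¹) ⊆ Metric.ball 0 (r j) :=
    fun j => Metric.ball_subset_ball (hle j)
  exact ⟨{
    p := p
    q := q
    unit := hu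
    pne := hp
    slope := hs
    r := (∑ j, (r j)⁻¹ + 1)⁻¹
    r0 := inv_pos.2 hpos
    V := V
    C := ∑ j, |C j|
    hol := fun j => (hhol j).mono (hsub j)
    bd := fun j τ hτ => ((hbd j τ (hsub j hτ)).trans (le_abs_self _)).trans
      (Finset.single_le_sum (f := fun j => |C j|) (fun i _ => abs_nonneg _) (Finset.mem_univ j))
    zero := fun j s hs => hzero j s (by
      rw [inv_inv] at hs
      exact (hrs j).trans_lt hs) }⟩

theorem w_cont {P : Pol} {m : ℕ} (E : Ends P m) (j : Fin m) {B : ℝ} (hB : E.r⁻¹ < B) :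
    ContinuousOn (E.w j) (Metric.sphere 0 B) := by
  have hr := E.r0
  have hB0 : 0 < B := (inv_pos.2 hr).trans hB
  have hV : ContinuousOn (fun s : ℂ => E.V j s⁻¹) (Metric.sphere 0 B) := by
    apply (E.hol j).continuousOn.comp (t := Metric.ball 0 E.r)
    · apply continuousOn_inv₀.mono
      intro s hs
      rw [mem_sphere_zero_iff_norm] at hs
      rw [Set.mem_compl_singleton_iff, ← norm_pos_iff, hs]
      exact hB0
    · intro s hs
      rw [mem_sphere_zero_iff_norm] at hs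
      rw [mem_ball_zero_iff, norm_inv, hs]
      rw [inv_lt_comm₀ hB0 hr]
      exact hB
  rw [continuousOn_pi]
  intro a
  fin_cases a
  · exact (continuousOn_const.mul continuousOn_id).sub (hV.mul continuousOn_const)
  · exact (continuousOn_const.mul continuousOn_id).add (hV.mul continuousOn_const)

theorem z_cont {P : Pol} {m : ℕ} (E : Ends P m) (j : Fin m) {B : ℝ} (hB : E.r⁻¹ < B) :
    ContinuousOn (E.z j) (Metric.sphere 0 B) := by
  have h1 : ContinuousOn (fun t : ℂ => E.w j ((starRingEnd ℂ) t)) (Metric.sphere 0 B) := by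
    apply (w_cont E j hB).comp Complex.continuous_conj.continuousOn
    intro s hs
    rw [mem_sphere_zero_iff_norm] at hs ⊢
    rw [Complex.norm_conj, hs]
  rw [continuousOn_pi] at h1 ⊢
  intro a
  exact Complex.continuous_conj.comp_continuousOn (h1 a)

theorem kn_sub {P : Pol} {m : ℕ} (E : Ends P m) {B : ℝ} (hB : E.r⁻¹ < B)
    (F G : (Fin 2 → ℂ) → ℂ) (hF : Entire F) (hG : Entire G) (k : Fin m × ℕ) :
    kn E B (fun z => F z - G z) k = kn E B F k - kn E B G k := by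
  have hr := E.r0
  have hB0 : 0 < B := (inv_pos.2 hr).trans hB
  have hpow : ContinuousOn (fun t : ℂ => t ^ (-(k.2 : ℤ) - 1)) (Metric.sphere 0 B) := by
    intro t ht
    rw [mem_sphere_zero_iff_norm] at ht
    have ht0 : t ≠ 0 := by
      rw [← norm_pos_iff, ht]; exact hB0
    exact (continuousAt_zpow₀ t _ (Or.inl ht0)).continuousWithinAt
  have hi : ∀ F : (Fin 2 → ℂ) → ℂ, Entire F →
      CircleIntegrable (fun t => F (E.z k.1 t) * t ^ (-(k.2 : ℤ) - 1)) 0 B := by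
    intro F hF
    apply ContinuousOn.circleIntegrable hB0.le
    exact (hF.continuous.comp_continuousOn (z_cont E k.1 hB)).mul hpow
  unfold kn Lc
  have h1 : (∮ t in C(0, B), (F (E.z k.1 t) - G (E.z k.1 t)) * t ^ (-(k.2 : ℤ) - 1)) =
      (∮ t in C(0, B), F (E.z k.1 t) * t ^ (-(k.2 : ℤ) - 1)) -
        ∮ t in C(0, B), G (E.z k.1 t) * t ^ (-(k.2 : ℤ) - 1) := by
    rw [← circleIntegral.integral_sub (hi F hF) (hi G hG)]
    congr 1
    funext t
    ring
  rw [h1]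
  ring

theorem exp_sub {F G : (Fin 2 → ℂ) → ℂ} (hF : ExpType F) (hG : ExpType G) :
    ExpType (fun z => F z - G z) := by
  obtain ⟨hF1, C1, B1, hF2⟩ := hF
  obtain ⟨hG1, C2, B2, hG2⟩ := hG
  refine ⟨hF1.sub hG1, |C1| + |C2|, max B1 B2, fun z => ?_⟩
  have h1 : C1 * Real.exp (B1 * ‖z‖) ≤ |C1| * Real.exp (max B1 B2 * ‖z‖) := by
    apply mul_le_mul (le_abs_self _) _ (Real.exp_pos _).le (abs_nonneg _)
    apply Real.exp_le_exp.2
    exact mul_le_mul_of_nonneg_right (le_max_left _ _) (norm_nonneg _)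
  have h2 : C2 * Real.exp (B2 * ‖z‖) ≤ |C2| * Real.exp (max B1 B2 * ‖z‖) := by
    apply mul_le_mul (le_abs_self _) _ (Real.exp_pos _).le (abs_nonneg _)
    apply Real.exp_le_exp.2
    exact mul_le_mul_of_nonneg_right (le_max_right _ _) (norm_nonneg _)
  calc ‖F z - G z‖ ≤ ‖F z‖ + ‖G z‖ := norm_sub_le _ _
    _ ≤ C1 * Real.exp (B1 * ‖z‖) + C2 * Real.exp (B2 * ‖z‖) := add_le_add (hF2 z) (hG2 z)
    _ ≤ _ := by rw [add_mul]; exact add_le_add h1 h2

theorem main0 (hEND : S_END) (hFUN : S_FUN) (hCJ : S_CJ) (hSUM : S_SUM) (hZERO : S_ZERO)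
    (hDIV : S_ENDDIV) (hCOL : S_COL) (hFRED : S_FRED) :
    ∀ P : Pol, Red P → MvPolynomial.eval ![0, 1] (lead P) ≠ 0 → Surj P := by
  classical
  intro P hR h0 G hG
  obtain ⟨E⟩ := hEND P hR h0
  set m := P.totalDegree with hm
  obtain ⟨B₀, hB₀⟩ := hCOL P m E
  obtain ⟨B₁, hB₁⟩ := hSUM P m E G hG
  set B : ℝ := max (max B₀ B₁) (E.r⁻¹ + 1) with hB
  have hBr : E.r⁻¹ < B := lt_of_lt_of_le (by linarith) (le_max_right _ _)
  have hB0 : 0 < B := (inv_pos.2 E.r0).trans hBr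
  obtain ⟨hcol, J, hJ⟩ := hB₀ B ((le_max_left _ _).trans (le_max_left _ _))
  have hsum := hB₁ B ((le_max_right _ _).trans (le_max_left _ _))
  -- the kernel
  have hker : ∀ x : Fin m × ℕ → ℂ, (Summable fun k => ‖x k‖) →
      (∀ k, ∑' i, Am E B k i * x i = 0) →
      ∀ f : (Fin 2 → ℂ) → ℂ, Entire f → Tx E B x f = 0 := by
    intro x hx hx0
    obtain ⟨hperp, hkn⟩ := hFUN P m E B hBr x hx
    have hent : ExpType (FBorel (Tx E B x)) := Inj.result.1 2 _ hperp.1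
    have hz : ∀ k, Tendsto (fun t => FBorel (Tx E B x) (E.z k t)) (Bornology.cobounded ℂ)
        (𝓝 0) := hZERO P m E _ B hBr hent.1 (fun k => by rw [hkn k, hx0 k])
    obtain ⟨g, hg, hg', -⟩ := hDIV P E h0 _ hent.1 hz
    exact Inj.result.2.2 2 P (Tx E B x) hperp g hg hg'
  -- the range
  have hwb : ∀ i : Fin m × ℕ, 0 < B ^ (2 * i.2) / ((i.2).factorial : ℝ) ∧
      B ^ (2 * i.2) / ((i.2).factorial : ℝ) ≤ Real.exp (B ^ 2) := by
    intro i
    refine ⟨by positivity, ?_⟩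
    rw [pow_mul]
    exact Real.pow_div_factorial_le_exp (B ^ 2) (by positivity) i.2
  have hdd : ∀ j, 1 ≤ ‖dd E j‖ ∧ ‖dd E j‖ ≤ Real.exp (E.C ^ 2) := by
    intro j
    have h1 : E.V j 0 * (starRingEnd ℂ) (E.V j 0) = ((‖E.V j 0‖ ^ 2 : ℝ) : ℂ) := by
      rw [Complex.mul_conj']
      push_cast
      rfl
    have h2 : ‖E.V j 0‖ ≤ E.C := E.bd j 0 (Metric.mem_ball_self E.r0)
    unfold dd
    rw [h1, ← Complex.ofReal_exp, Complex.norm_real, Real.norm_of_nonneg (Real.exp_pos _).le]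
    constructor
    · exact Real.one_le_exp (by positivity)
    · apply Real.exp_le_exp.2
      exact pow_le_pow_left₀ (norm_nonneg _) h2 2
  obtain ⟨x, hx, hxz⟩ := hFRED (Fin m × ℕ) (Am E B) (fun i => dd E i.1) (Real.exp (E.C ^ 2))
    (fun i => B ^ (2 * i.2) / ((i.2).factorial : ℝ)) (Real.exp (B ^ 2)) J hcol
    (fun i => hdd i.1) hwb hJ (kn E B G) hsum
    (fun x hx hx0 => hCJ P m E B hBr x hx G hG.1 (hker x hx hx0))
    (fun x y hx hy hx0 => by
      obtain ⟨hperp, hkn⟩ := hFUN P m E B hBr y hy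
      have hent : ExpType (FBorel (Tx E B y)) := Inj.result.1 2 _ hperp.1
      have h1 := hCJ P m E B hBr x hx _ hent.1 (hker x hx hx0)
      simp only [hkn] at h1
      exact h1)
  obtain ⟨hperp, hkn⟩ := hFUN P m E B hBr x hx
  have hent : ExpType (FBorel (Tx E B x)) := Inj.result.1 2 _ hperp.1
  have hexp := exp_sub hent hG
  refine ⟨Tx E B x, hperp, ?_⟩
  have hz := hZERO P m E (fun z => FBorel (Tx E B x) z - G z) B hBr hexp.1 (fun k => by
    rw [kn_sub E hBr _ _ hent.1 hG.1, hkn k, hxz k, sub_self])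
  obtain ⟨g, hg, hg', hg''⟩ := hDIV P E h0 _ hexp.1 hz
  exact ⟨g, hg'' hexp, hg'⟩

theorem main_thm (h1 : S_END1) (h2 : S_END2) (hFUN : S_FUN) (hCJ : S_CJ) (hSUM : S_SUM)
    (hZERO : S_ZERO) (hDIV : S_ENDDIV) (hCOL : S_COL) (hFRED : S_FRED) (hUNI : S_UNI) : S_MAIN :=
  hUNI (main0 (end_thm h1 h2) hFUN hCJ hSUM hZERO hDIV hCOL hFRED)

end Pool.Agent.Helper25.FB
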