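import Pool.Agent.Helper25.FB.Inj

set_option autoImplicit false

/-!
# FB: Fischer decomposition for entire functions of two variables, leading form without multiple
factors (MP_6e521b_an): definitions and statements of the parts
-/

namespace Pool.Agent.Helper25.FB

open Inj Filter Topology

/-- polynomials in two variables -/
abbrev Pol := MvPolynomial (Fin 2) ℂ

/-- the leading form -/
noncomputable def lead (P : Pol) : Pol := MvPolynomial.homogeneousComponent P.totalDegree P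

/-- the gradient of the leading form does not vanish at the nonzero zeros of the leading form,
i.e. the leading form is not zero and has no multiple factor -/
def Red (P : Pol) : Prop := ∀ a : Fin 2 → ℂ, a ≠ 0 → MvPolynomial.eval a (lead P) = 0 →
  ∃ i, MvPolynomial.eval a (MvPolynomial.pderiv i (lead P)) ≠ 0

/-- `Φ_P` is surjective -/
def Surj (P : Pol) : Prop := ∀ G : (Fin 2 → ℂ) → ℂ, ExpType G →
  ∃ T : ((Fin 2 → ℂ) → ℂ) → ℂ, InPerp P T ∧ InPStarExp P (fun z => FBorel T z - G z)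

/-- a curve `s (p, q) + V(1/s) (-conj q, conj p)` -/
noncomputable def ww (p q : ℂ) (V : ℂ → ℂ) (s : ℂ) : Fin 2 → ℂ :=
  ![p * s - V s⁻¹ * (starRingEnd ℂ) q, q * s + V s⁻¹ * (starRingEnd ℂ) p]

/-- the ends of the curve `P = 0` -/
structure Ends (P : Pol) (m : ℕ) where
  p : Fin m → ℂ
  q : Fin m → ℂ
  unit : ∀ j, ‖p j‖ ^ 2 + ‖q j‖ ^ 2 = 1
  pne : ∀ j, p j ≠ 0
  slope : ∀ j k, j ≠ k → p j * q k ≠ p k * q j
  r : ℝ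
  r0 : 0 < r
  V : Fin m → ℂ → ℂ
  C : ℝ
  hol : ∀ j, DifferentiableOn ℂ (V j) (Metric.ball 0 r)
  bd : ∀ j, ∀ τ ∈ Metric.ball (0 : ℂ) r, ‖V j τ‖ ≤ C
  zero : ∀ j (s : ℂ), r⁻¹ < ‖s‖ → MvPolynomial.eval (ww (p j) (q j) (V j) s) P = 0

namespace Ends
variable {P : Pol} {m : ℕ} (E : Ends P m)

/-- parametrisation of the end `j` of `P = 0` -/
noncomputable def w (j : Fin m) (s : ℂ) : Fin 2 → ℂ := ww (E.p j) (E.q j) (E.V j) s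

/-- parametrisation of the end `j` of `P* = 0` -/
noncomputable def z (j : Fin m) (t : ℂ) : Fin 2 → ℂ :=
  fun a => (starRingEnd ℂ) (E.w j ((starRingEnd ℂ) t) a)

end Ends

/-- Laurent coefficients -/
noncomputable def Lc (R : ℝ) (φ : ℂ → ℂ) (n : ℤ) : ℂ :=
  (2 * Real.pi * Complex.I)⁻¹ * ∮ s in C(0, R), φ s * s ^ (-n - 1)

section
variable {P : Pol} {m : ℕ}

/-- the functional with the normalised moments `x` -/
noncomputable def Tx (E : Ends P m) (B : ℝ) (x : Fin m × ℕ → ℂ) (f : (Fin 2 → ℂ) → ℂ) : ℂ :=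
  ∑' i : Fin m × ℕ, x i * ((B : ℂ) ^ i.2 * Lc B (fun s => f (E.w i.1 s)) i.2)

/-- normalised Laurent coefficients of `G` at the ends of `P* = 0` -/
noncomputable def kn (E : Ends P m) (B : ℝ) (G : (Fin 2 → ℂ) → ℂ) (k : Fin m × ℕ) : ℂ :=
  ((k.2).factorial : ℂ) / (B : ℂ) ^ k.2 * Lc B (fun t => G (E.z k.1 t)) k.2

/-- the matrix of the system, for a kernel `H t s` -/
noncomputable def Mx (B : ℝ) (H : ℂ → ℂ → ℂ) (l n : ℕ) : ℂ :=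
  (l.factorial : ℂ) / (B : ℂ) ^ l *
    Lc B (fun t => (B : ℂ) ^ n * Lc B (fun s => H t s) n) l

/-- the matrix of the system -/
noncomputable def Am (E : Ends P m) (B : ℝ) (k i : Fin m × ℕ) : ℂ :=
  Mx B (fun t s => Complex.exp (∑ a, E.w i.1 s a * E.z k.1 t a)) k.2 i.2

/-- diagonal -/
noncomputable def dd (E : Ends P m) (j : Fin m) : ℂ :=
  Complex.exp (E.V j 0 * (starRingEnd ℂ) (E.V j 0))

end

/-! ## statements -/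

/-- roots of the leading form -/
def S_END1 : Prop := ∀ P : Pol, Red P → MvPolynomial.eval ![0, 1] (lead P) ≠ 0 →
  ∃ p q : Fin P.totalDegree → ℂ, (∀ j, ‖p j‖ ^ 2 + ‖q j‖ ^ 2 = 1) ∧ (∀ j, p j ≠ 0) ∧
    (∀ j k, j ≠ k → p j * q k ≠ p k * q j) ∧ ∀ j, MvPolynomial.eval ![p j, q j] (lead P) = 0

/-- the end of the curve in the direction `(p, q)` -/
def S_END2 : Prop := ∀ (P : Pol) (p q : ℂ), Red P → ‖p‖ ^ 2 + ‖q‖ ^ 2 = 1 →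
  MvPolynomial.eval ![p, q] (lead P) = 0 → ∃ (r C : ℝ) (V : ℂ → ℂ), 0 < r ∧
    DifferentiableOn ℂ V (Metric.ball 0 r) ∧ (∀ τ ∈ Metric.ball (0 : ℂ) r, ‖V τ‖ ≤ C) ∧
    ∀ s : ℂ, r⁻¹ < ‖s‖ → MvPolynomial.eval (ww p q V s) P = 0

/-- the ends -/
def S_END : Prop := ∀ P : Pol, Red P → MvPolynomial.eval ![0, 1] (lead P) ≠ 0 →
  Nonempty (Ends P P.totalDegree)

/-- Laurent coefficients: independence of the radius, Cauchy estimate, decay -/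
def S_LAU : Prop := ∀ (φ : ℂ → ℂ) (ρ : ℝ), 0 ≤ ρ → DifferentiableOn ℂ φ {s | ρ < ‖s‖} →
  (∀ (R R' : ℝ) (n : ℤ), ρ < R → ρ < R' → Lc R φ n = Lc R' φ n) ∧
  (∀ (R M : ℝ) (n : ℤ), ρ < R → (∀ s, ‖s‖ = R → ‖φ s‖ ≤ M) → ‖Lc R φ n‖ ≤ M * R ^ (-n)) ∧
  (∀ R : ℝ, ρ < R → (∀ n : ℕ, Lc R φ n = 0) → Tendsto φ (Bornology.cobounded ℂ) (𝓝 0))

/-- factorials and Laurent coefficients of functions of exponential growth -/
def S_FAC : Prop := ∀ ρ c B : ℝ, 0 ≤ ρ → 0 < c → c < B → ρ < B → ∃ K : ℝ, 0 ≤ K ∧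
  ∀ (φ : ℂ → ℂ) (M : ℝ), 0 ≤ M → DifferentiableOn ℂ φ {s | ρ < ‖s‖} →
  (∀ s : ℂ, ρ < ‖s‖ → ‖φ s‖ ≤ M * Real.exp (c * ‖s‖)) →
  Summable (fun l : ℕ => ‖(l.factorial : ℂ) / (B : ℂ) ^ l * Lc B φ l‖) ∧
  ∑' l : ℕ, ‖(l.factorial : ℂ) / (B : ℂ) ^ l * Lc B φ l‖ ≤ M * K

/-- the functional and its Fourier-Borel transform -/
def S_FUN : Prop := ∀ (P : Pol) (m : ℕ) (E : Ends P m) (B : ℝ), E.r⁻¹ < B →
  ∀ x : Fin m × ℕ → ℂ, Summable (fun i => ‖x i‖) →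
    InPerp P (Tx E B x) ∧ ∀ k, kn E B (FBorel (Tx E B x)) k = ∑' i, Am E B k i * x i

/-- conjugation -/
def S_CJ : Prop := ∀ (P : Pol) (m : ℕ) (E : Ends P m) (B : ℝ), E.r⁻¹ < B →
  ∀ x : Fin m × ℕ → ℂ, Summable (fun i => ‖x i‖) → ∀ G : (Fin 2 → ℂ) → ℂ, Entire G →
    (∀ f : (Fin 2 → ℂ) → ℂ, Entire f → Tx E B x f = 0) →
    ∑' k : Fin m × ℕ, (starRingEnd ℂ) (x k) *
      ((((B ^ (2 * k.2) / ((k.2).factorial : ℝ) : ℝ)) : ℂ) * kn E B G k) = 0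

/-- exponential type gives summable normalised coefficients -/
def S_SUM : Prop := ∀ (P : Pol) (m : ℕ) (E : Ends P m) (G : (Fin 2 → ℂ) → ℂ), ExpType G →
  ∃ B₁ : ℝ, ∀ B ≥ B₁, Summable (fun k => ‖kn E B G k‖)

/-- vanishing coefficients -/
def S_ZERO : Prop := ∀ (P : Pol) (m : ℕ) (E : Ends P m) (G : (Fin 2 → ℂ) → ℂ) (B : ℝ),
  E.r⁻¹ < B → Entire G → (∀ k, kn E B G k = 0) →
    ∀ k, Tendsto (fun t => G (E.z k t)) (Bornology.cobounded ℂ) (𝓝 0)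

/-- Weierstrass division by a polynomial which is monic (up to a constant) in the second
variable -/
def S_DIV1 : Prop := ∀ (Q : Pol) (G : (Fin 2 → ℂ) → ℂ), MvPolynomial.eval ![0, 1] (lead Q) ≠ 0 →
  Entire G → ∃ (g : (Fin 2 → ℂ) → ℂ) (c : ℕ → ℂ → ℂ), Entire g ∧ (∀ i, Differentiable ℂ (c i)) ∧
    (∀ x y : ℂ, G ![x, y] = MvPolynomial.eval ![x, y] Q * g ![x, y] +
      ∑ i ∈ Finset.range Q.totalDegree, c i x * y ^ i) ∧ (ExpType G → ExpType g)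

/-- for large `x` the ends give all points `(x, y)` of `P* = 0` -/
def S_ROOT : Prop := ∀ (P : Pol) (m : ℕ) (E : Ends P m), ∃ c C : ℝ, 0 < c ∧ ∀ ρ₁ : ℝ, ∃ ρ₂ : ℝ,
  ∀ x : ℂ, ρ₂ < ‖x‖ → ∃ t : Fin m → ℂ, (∀ j, ρ₁ < ‖t j‖ ∧ E.z j (t j) 0 = x ∧
    ‖E.z j (t j) 1‖ ≤ C * ‖x‖ ∧ MvPolynomial.eval (E.z j (t j)) (star P) = 0) ∧
    ∀ j k, j ≠ k → c * ‖x‖ ≤ ‖E.z j (t j) 1 - E.z k (t k) 1‖

/-- division -/
def S_ENDDIV : Prop := ∀ (P : Pol) (E : Ends P P.totalDegree),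
  MvPolynomial.eval ![0, 1] (lead P) ≠ 0 → ∀ G : (Fin 2 → ℂ) → ℂ, Entire G →
  (∀ k, Tendsto (fun t => G (E.z k t)) (Bornology.cobounded ℂ) (𝓝 0)) →
  ∃ g : (Fin 2 → ℂ) → ℂ, Entire g ∧ (∀ z, G z = MvPolynomial.eval z (star P) * g z) ∧
    (ExpType G → ExpType g)

/-- off-diagonal blocks -/
def S_OFF : Prop := ∀ (H : ℂ → ℂ → ℂ) (ρ a C : ℝ), 0 < ρ → 0 ≤ a → a < 1 → 0 ≤ C →
  (∀ t, DifferentiableOn ℂ (fun s => H t s) {s | ρ < ‖s‖}) →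
  (∀ s, ρ < ‖s‖ → DifferentiableOn ℂ (fun t => H t s) {t | ρ < ‖t‖}) →
  ContinuousOn (fun u : ℂ × ℂ => H u.1 u.2) {u | ρ < ‖u.1‖ ∧ ρ < ‖u.2‖} →
  (∀ t s, ρ < ‖t‖ → ρ < ‖s‖ →
    ‖H t s‖ ≤ Real.exp (a * ‖t‖ * ‖s‖ + C * ‖t‖ + C * ‖s‖ + C)) →
  ∃ B₀ : ℝ, ∀ B ≥ B₀, (∀ n, Summable fun l => ‖Mx B H l n‖) ∧
    Tendsto (fun n => ∑' l, ‖Mx B H l n‖) atTop (𝓝 0)

/-- diagonal blocks -/
def S_DIAG : Prop := ∀ (U V : ℂ → ℂ) (r C : ℝ), 0 < r → DifferentiableOn ℂ U (Metric.ball 0 r) →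
  DifferentiableOn ℂ V (Metric.ball 0 r) → (∀ τ ∈ Metric.ball (0 : ℂ) r, ‖U τ‖ ≤ C) →
  (∀ τ ∈ Metric.ball (0 : ℂ) r, ‖V τ‖ ≤ C) → ∃ B₀ : ℝ, ∀ B ≥ B₀,
    (∀ n, Summable fun l => ‖Mx B (fun t s => Complex.exp (t * s + V s⁻¹ * U t⁻¹)) l n‖) ∧
    ∃ N, ∀ n ≥ N, ∑' l, ‖Mx B (fun t s => Complex.exp (t * s + V s⁻¹ * U t⁻¹)) l n -
      if l = n then Complex.exp (V 0 * U 0) else 0‖ ≤ 1 / 4

/-- the columns of the matrix -/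
def S_COL : Prop := ∀ (P : Pol) (m : ℕ) (E : Ends P m), ∃ B₀ : ℝ, ∀ B ≥ B₀,
  (∀ i, Summable fun k => ‖Am E B k i‖) ∧ ∃ J : Finset (Fin m × ℕ), ∀ i ∉ J,
    ∑' k, ‖Am E B k i - if k = i then dd E i.1 else 0‖ ≤ 1 / 2

/-- Fredholm alternative in `ℓ¹` -/
def S_FRED : Prop := ∀ (I : Type) [DecidableEq I] (A : I → I → ℂ) (d : I → ℂ) (D : ℝ)
  (w : I → ℝ) (W : ℝ) (J : Finset I), (∀ i, Summable fun k => ‖A k i‖) →
  (∀ i, 1 ≤ ‖d i‖ ∧ ‖d i‖ ≤ D) → (∀ i, 0 < w i ∧ w i ≤ W) →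
  (∀ i ∉ J, ∑' k, ‖A k i - if k = i then d i else 0‖ ≤ 1 / 2) →
  ∀ z : I → ℂ, (Summable fun k => ‖z k‖) →
  (∀ x : I → ℂ, (Summable fun k => ‖x k‖) → (∀ k, ∑' i, A k i * x i = 0) →
    ∑' k, (starRingEnd ℂ) (x k) * (w k * z k) = 0) →
  (∀ x y : I → ℂ, (Summable fun k => ‖x k‖) → (Summable fun k => ‖y k‖) →
    (∀ k, ∑' i, A k i * x i = 0) →
    ∑' k, (starRingEnd ℂ) (x k) * (w k * ∑' i, A k i * y i) = 0) →
  ∃ x : I → ℂ, (Summable fun k => ‖x k‖) ∧ ∀ k, ∑' i, A k i * x i = z k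

/-- change of coordinates -/
def S_UNI : Prop := (∀ P : Pol, Red P → MvPolynomial.eval ![0, 1] (lead P) ≠ 0 → Surj P) →
  ∀ P : Pol, Red P → Surj P

/-- the theorem -/
def S_MAIN : Prop := ∀ P : Pol, Red P → Surj P

end Pool.Agent.Helper25.FB
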